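import Mathlib
import Pool.Agent.Run7.h625.H2

namespace Pool.Agent.Results.MP_33c730_lc.MSONearSparse

open Run7.h625

/-- Order-invariant first-order logic is contained in monadic second-order logic (with
quantification over vertices and sets of vertices only) on near-sparse graphs: for all `q`, `d` and
each first-order sentence `φ` over the edge relation, `k` colours and an order there is a monadic
second-order sentence `ψ` over the edge relation and the colours such that on each finite coloured
graph `G` which is near-sparse with parameters `q`, `d` and on which `φ` is order-invariant, and for
each linear order of the vertices of `G`, `ψ` holds if and only if `φ` holds. -/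
theorem result (q d k : ℕ) (φ : (OGLang k).Sentence) :
    ∃ ψ : MSO Unit (Fin k) 0 0, ∀ G : ColGraph k, NearSparse q d G → InvariantOn G φ →
      ∀ o : LinearOrder G.V,
        (ψ.Sat (fun _ => G.E) G.P Fin.elim0 Fin.elim0 ↔ Models G o.lt φ) :=
  h2_main q d k φ

end Pool.Agent.Results.MP_33c730_lc.MSONearSparse
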