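import Mathlib
import Pool.Agent.Run7.h625.H1

namespace Pool.Agent.Results.MP_33c730_lc.MSOOneEdgeSet

open Run7.h625

/-- Order-invariant first-order logic over coloured graphs is contained in monadic second-order
logic with one additional existential quantifier over a set `F` of edges of the graph: for every
first-order sentence `φ` over the edge relation, `k` colours and an order there is a monadic
second-order sentence `ψ` over the edge relation, the colours and `F` (all quantifiers of `ψ` range
over vertices and sets of vertices) such that on each finite coloured graph `G` on which `φ` is
order-invariant, and for each linear order of its vertices, `φ` holds if and only if `ψ` holds for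
some edge set `F` of `G`. -/
theorem result (k : ℕ) (φ : (OGLang k).Sentence) :
    ∃ ψ : MSO ESym (Fin k) 0 0, ∀ G : ColGraph k, InvariantOn G φ → ∀ o : LinearOrder G.V,
      ((∃ F : G.V → G.V → Prop, IsEdgeSet G F ∧
        ψ.Sat (ESym.interp G.E F) G.P Fin.elim0 Fin.elim0) ↔ Models G o.lt φ) :=
  h1_main k φ

end Pool.Agent.Results.MP_33c730_lc.MSOOneEdgeSet
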